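import Mathlib
import Pool.Agent.Q252.RP13

/-!
# Bounded sums of reversed primes in a fixed base

For every base `b ≥ 2` there is a `K` such that every sufficiently large integer is a sum of at most
`K` reversed primes in base `b`.
-/

set_option autoImplicit false

namespace Pool.Agent.Results.MP_199216_nt.EveryBase

/-- The digital reverse of `n` in base `b`: if `n = ∑ i < L, ε i * b ^ i` with `ε (L - 1) ≠ 0`, then
this is `∑ i < L, ε i * b ^ (L - 1 - i)`. -/
def reverse (b n : ℕ) : ℕ := Nat.ofDigits b (Nat.digits b n).reverse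

/-- `m` is a reversed prime in base `b`. -/
def IsReversedPrime (b m : ℕ) : Prop := ∃ p : ℕ, p.Prime ∧ m = reverse b p

/-- `N` is a sum of at most `K` reversed primes in base `b`, repetitions allowed. -/
def IsSumOfAtMost (b K N : ℕ) : Prop :=
  ∃ l : List ℕ, l.length ≤ K ∧ (∀ x ∈ l, IsReversedPrime b x) ∧ l.sum = N

/-- For each base `b ≥ 2` there are `K > 1` and `N₀` such that every integer `N ≥ N₀` is a sum of at
most `K` reversed primes in base `b`. -/
theorem result : ∀ b : ℕ, 2 ≤ b →
    ∃ K : ℕ, 1 < K ∧ ∃ N₀ : ℕ, ∀ N : ℕ, N₀ ≤ N → IsSumOfAtMost b K N := by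
  intro b hb
  obtain ⟨K, N₀, hK, h⟩ := Q252.RP.fixed_base hb
  exact ⟨K, by omega, N₀, h⟩

end Pool.Agent.Results.MP_199216_nt.EveryBase
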